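import Pool.Agent.H24.SCG.Base
import Pool.Agent.H24.SCG3.Stmts6

/-! Project SCG3: Boolean matrices for `q = 2` (helper17). -/

namespace Pool.Agent.H17.SCG3

open Matrix Pool.SCG

/-- strict evaluation of a Boolean -/
def fc {α : Type} (b : Bool) (k : Bool → α) : α :=
  match b with
  | true => k true
  | false => k false

theorem fc_eq {α : Type} (b : Bool) (k : Bool → α) : fc b k = k b := by
  cases b <;> rfl

/-- Boolean `3 x 3` matrices -/
inductive M9 : Type
  | mk (a b c d e f g h i : Bool) : M9
  deriving DecidableEq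

/-- product -/
def mulM : M9 → M9 → M9
  | .mk a b c d e f g h i, .mk a' b' c' d' e' f' g' h' i' =>
    fc (xor (xor (a && a') (b && d')) (c && g')) fun p0 =>
    fc (xor (xor (a && b') (b && e')) (c && h')) fun p1 =>
    fc (xor (xor (a && c') (b && f')) (c && i')) fun p2 =>
    fc (xor (xor (d && a') (e && d')) (f && g')) fun p3 =>
    fc (xor (xor (d && b') (e && e')) (f && h')) fun p4 =>
    fc (xor (xor (d && c') (e && f')) (f && i')) fun p5 =>
    fc (xor (xor (g && a') (h && d')) (i && g')) fun p6 =>
    fc (xor (xor (g && b') (h && e')) (i && h')) fun p7 =>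
    fc (xor (xor (g && c') (h && f')) (i && i')) fun p8 =>
    .mk p0 p1 p2 p3 p4 p5 p6 p7 p8

/-- cofactor matrix -/
def cofM : M9 → M9
  | .mk a b c d e f g h i =>
    fc (xor (e && i) (f && h)) fun p0 =>
    fc (xor (d && i) (f && g)) fun p1 =>
    fc (xor (d && h) (e && g)) fun p2 =>
    fc (xor (b && i) (c && h)) fun p3 =>
    fc (xor (a && i) (c && g)) fun p4 =>
    fc (xor (a && h) (b && g)) fun p5 =>
    fc (xor (b && f) (c && e)) fun p6 =>
    fc (xor (a && f) (c && d)) fun p7 =>
    fc (xor (a && e) (b && d)) fun p8 =>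
    .mk p0 p1 p2 p3 p4 p5 p6 p7 p8

section
variable {F : Type} [Field F]

/-- value of a Boolean in `F` -/
def val (F : Type) [Field F] (b : Bool) : F := if b then 1 else 0

theorem val_true : val F true = 1 := rfl
theorem val_false : val F false = 0 := rfl

theorem val_and (a b : Bool) : val F (a && b) = val F a * val F b := by
  cases a <;> cases b <;> simp [val]

theorem val_xor (h2 : (2 : F) = 0) (a b : Bool) : val F (xor a b) = val F a + val F b := by
  cases a <;> cases b <;> simp [val]
  rw [one_add_one_eq_two, h2]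

theorem val_inj {a b : Bool} (h : val F a = val F b) : a = b := by
  cases a <;> cases b <;> simp [val] at h ⊢

/-- value of a Boolean matrix -/
def bm (F : Type) [Field F] : M9 → M3 F
  | .mk a b c d e f g h i =>
    !![val F a, val F b, val F c; val F d, val F e, val F f; val F g, val F h, val F i]

theorem bm_inj {x y : M9} (h : bm F x = bm F y) : x = y := by
  cases x with
  | mk a b c d e f g h1 i =>
  cases y with
  | mk a' b' c' d' e' f' g' h' i' =>
  have e0 := val_inj (congrFun (congrFun h 0) 0)
  have e1 := val_inj (congrFun (congrFun h 0) 1)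
  have e2 := val_inj (congrFun (congrFun h 0) 2)
  have e3 := val_inj (congrFun (congrFun h 1) 0)
  have e4 := val_inj (congrFun (congrFun h 1) 1)
  have e5 := val_inj (congrFun (congrFun h 1) 2)
  have e6 := val_inj (congrFun (congrFun h 2) 0)
  have e7 := val_inj (congrFun (congrFun h 2) 1)
  have e8 := val_inj (congrFun (congrFun h 2) 2)
  subst e0 e1 e2 e3 e4 e5 e6 e7 e8
  rfl

theorem bm_mul (h2 : (2 : F) = 0) (x y : M9) : bm F x * bm F y = bm F (mulM x y) := by
  cases x with
  | mk a b c d e f g h1 i =>
  cases y with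
  | mk a' b' c' d' e' f' g' h' i' =>
  simp only [mulM, fc_eq, bm]
  ext r s
  fin_cases r <;> fin_cases s <;>
    (simp only [Matrix.mul_apply, Fin.sum_univ_three, val_xor h2, val_and]; rfl)

theorem bm_cof (h2 : (2 : F) = 0) (x : M9) : (adjugate (bm F x)).transpose = bm F (cofM x) := by
  cases x with
  | mk a b c d e f g h1 i =>
  have hneg : ∀ t : F, -t = t := by
    intro t
    linear_combination (-t) * h2
  simp only [cofM, fc_eq, bm, adjugate_fin_three_of, val_xor h2, val_and, sub_eq_add_neg, hneg]
  ext r s
  fin_cases r <;> fin_cases s <;> rfl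

end

end Pool.Agent.H17.SCG3
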