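import Pool.Agent.H17.SCG3.B2

/-! Project SCG3: Boolean model of `Cor F` for a field with two elements (helper17). -/

namespace Pool.Agent.H17.SCG3

open Matrix Pool.SCG

/-- a Boolean matrix and a sign -/
inductive EM : Type
  | mk (x : M9) (s : Bool) : EM

/-- the matrix -/
def EM.m : EM → M9
  | .mk x _ => x

/-- the sign -/
def EM.s : EM → Bool
  | .mk _ s => s

/-- product -/
def emul : EM → EM → EM
  | .mk x s, .mk y true => .mk (mulM (cofM x) y) (!s)
  | .mk x s, .mk y false => .mk (mulM x y) s

/-- equality test for matrices -/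
def eqM : M9 → M9 → Bool
  | .mk a b c d e f g h i, .mk a' b' c' d' e' f' g' h' i' =>
    !(xor a a') && (!(xor b b') && (!(xor c c') && (!(xor d d') && (!(xor e e') &&
      (!(xor f f') && (!(xor g g') && (!(xor h h') && !(xor i i'))))))))

theorem eqM_iff {x y : M9} : eqM x y = true ↔ x = y := by
  have h : ∀ a b : Bool, (!(xor a b)) = true ↔ a = b := by decide
  cases x with
  | mk a b c d e f g h1 i =>
  cases y with
  | mk a' b' c' d' e' f' g' h' i' =>
  simp only [eqM, Bool.and_eq_true, h, M9.mk.injEq]

/-- equality test -/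
def eqE : EM → EM → Bool
  | .mk x s, .mk y t => !(xor s t) && eqM x y

theorem eqE_iff {p q : EM} : eqE p q = true ↔ p = q := by
  have h : ∀ a b : Bool, (!(xor a b)) = true ↔ a = b := by decide
  cases p with
  | mk x s =>
  cases q with
  | mk y t =>
  simp only [eqE, Bool.and_eq_true, h, eqM_iff, EM.mk.injEq]
  exact and_comm

/-- commutation test -/
def cmE (p q : EM) : Bool := eqE (emul p q) (emul q p)

/-- the unit matrix -/
def oneM : M9 := .mk true false false false true false false false true

/-- the unit -/
def oneE : EM := .mk oneM false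

section
variable {F : Type} [Field F]

/-- `x` has the Boolean form `p` -/
def IsE (x : Cor F) (p : EM) : Prop := Is x p.s (bm F p.m)

theorem IsE.uniq {x : Cor F} {p q : EM} (hx : IsE x p) (hy : IsE x q) : p = q := by
  cases p with
  | mk a s =>
  cases q with
  | mk b t =>
  have h := Is.uniq hx hy
  have h1 : s = t := h.1
  have h2 : a = b := bm_inj h.2
  rw [h1, h2]

theorem IsE.ext {x y : Cor F} {p : EM} (hx : IsE x p) (hy : IsE y p) : x = y := Is.ext hx hy

theorem isE_one : IsE (1 : Cor F) oneE := by
  refine ⟨rfl, ?_⟩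
  show (1 : M3 F) = bm F oneM
  simp only [oneM, bm, val_true, val_false]
  ext i j
  fin_cases i <;> fin_cases j <;> rfl

theorem IsE.mul (h2 : (2 : F) = 0) {x y : Cor F} {p q : EM} (hx : IsE x p) (hy : IsE y q) :
    IsE (x * y) (emul p q) := by
  cases p with
  | mk a s =>
  cases q with
  | mk b t =>
  cases t with
  | true =>
    have h : Is (x * y) (!s) ((adjugate (bm F a)).transpose * bm F b) := Is.mul_outer hx hy
    rw [bm_cof h2, bm_mul h2] at h
    exact h
  | false =>
    have h : Is (x * y) s (bm F a * bm F b) := Is.mul_inner hx hy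
    rw [bm_mul h2] at h
    exact h

theorem IsE.comm_iff (h2 : (2 : F) = 0) {x y : Cor F} {p q : EM} (hx : IsE x p)
    (hy : IsE y q) : x * y = y * x ↔ cmE p q = true := by
  rw [cmE, eqE_iff]
  constructor
  · intro h
    have h1 := hx.mul h2 hy
    rw [h] at h1
    exact h1.uniq (hy.mul h2 hx)
  · intro h
    have h1 := hx.mul h2 hy
    rw [h] at h1
    exact h1.ext (hy.mul h2 hx)

end

/-! ### fields with two elements -/

section
variable {F : Type} [Field F] [Finite F]

theorem two_zero (hc : Nat.card F = 2) : (2 : F) = 0 := by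
  have h : ((Nat.card F : ℕ) : F) = 0 := by
    have := Fintype.ofFinite F
    rw [Nat.card_eq_fintype_card]
    exact Nat.cast_card_eq_zero F
  rw [hc] at h
  exact_mod_cast h

theorem exists_val (hc : Nat.card F = 2) (x : F) : ∃ b : Bool, val F b = x := by
  have hb : Nat.card Bool = Nat.card F := by rw [hc]; simp
  have hinj : Function.Injective (val F) := fun a b h => val_inj h
  have : Function.Bijective (val F) := by
    rw [Nat.bijective_iff_injective_and_card]
    exact ⟨hinj, hb⟩
  exact this.2 x

theorem exists_bm (hc : Nat.card F = 2) (A : M3 F) : ∃ p : M9, bm F p = A := by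
  obtain ⟨a, ha⟩ := exists_val hc (A 0 0)
  obtain ⟨b, hb⟩ := exists_val hc (A 0 1)
  obtain ⟨c, hcc⟩ := exists_val hc (A 0 2)
  obtain ⟨d, hd⟩ := exists_val hc (A 1 0)
  obtain ⟨e, he⟩ := exists_val hc (A 1 1)
  obtain ⟨f, hf⟩ := exists_val hc (A 1 2)
  obtain ⟨g, hg⟩ := exists_val hc (A 2 0)
  obtain ⟨h, hh⟩ := exists_val hc (A 2 1)
  obtain ⟨i, hi⟩ := exists_val hc (A 2 2)
  refine ⟨.mk a b c d e f g h i, ?_⟩
  simp only [bm]
  ext r s
  fin_cases r <;> fin_cases s <;> simp [*]

theorem exists_isE (hc : Nat.card F = 2) (x : Cor F) : ∃ p : EM, IsE x p ∧ p.s = x.s := by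
  obtain ⟨p, hp⟩ := exists_bm hc (x.m : M3 F)
  exact ⟨.mk p x.s, ⟨rfl, hp.symm⟩, rfl⟩

end

/-! ### lists -/

/-- both Booleans -/
def allB : List Bool := [true, false]

/-- all Boolean matrices -/
def listM (k : Bool → Bool → Bool → Bool → Bool → Bool → Bool → Bool → Bool → Bool) : Bool :=
  allB.all fun a => allB.all fun b => allB.all fun c => allB.all fun d => allB.all fun e =>
  allB.all fun f => allB.all fun g => allB.all fun h => allB.all fun i => k a b c d e f g h i

theorem allB_all {f : Bool → Bool} (h : allB.all f = true) (b : Bool) : f b = true := by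
  rw [List.all_eq_true] at h
  exact h b (by cases b <;> simp [allB])

theorem listM_spec {k : Bool → Bool → Bool → Bool → Bool → Bool → Bool → Bool → Bool → Bool}
    (H : listM k = true) (a b c d e f g h i : Bool) : k a b c d e f g h i = true :=
  allB_all (allB_all (allB_all (allB_all (allB_all (allB_all (allB_all (allB_all
    (allB_all H a) b) c) d) e) f) g) h) i

/-- membership test -/
def memE (p : EM) : List EM → Bool
  | [] => false
  | q :: l => eqE p q || memE p l

theorem memE_iff {p : EM} {l : List EM} : memE p l = true ↔ p ∈ l := by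
  induction l with
  | nil => simp [memE]
  | cons q l ih => simp only [memE, Bool.or_eq_true, eqE_iff, ih, List.mem_cons]

end Pool.Agent.H17.SCG3
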