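import Pool.Agent.H17.SCG3.EQL

/-! Project SCG3: rows EQA and EQB, the case `q = 2` (helper17). -/

namespace Pool.Agent.H17.SCG3

open Matrix Pool.SCG

theorem all_of {l : List EM} {f : EM → Bool} (h : l.all f = true) {p : EM} (hp : p ∈ l) :
    f p = true := by
  rw [List.all_eq_true] at h
  exact h p hp

theorem mem_inv {F : Type} [Field F] (h2 : (2 : F) = 0) {x : Cor F} {p : EM} (hx : IsE x p)
    (hi : Iv x) : p ∈ innL ++ outL := by
  cases hs : x.s with
  | false => exact List.mem_append.2 (Or.inl (mem_of_chkI h2 chkI_inn hx hs hi))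
  | true => exact List.mem_append.2 (Or.inr (mem_of_chkI h2 chkI_out hx hs hi))

/-- row EQA -/
theorem eqa_thm : EQAStmt := by
  intro F _ _ hc a b d ha hb hd hds had hbd hab
  have h2 := two_zero hc
  obtain ⟨pa, hpa, -⟩ := exists_isE hc a
  obtain ⟨pb, hpb, -⟩ := exists_isE hc b
  obtain ⟨pd, hpd, -⟩ := exists_isE hc d
  have md : pd ∈ innL := mem_of_chkI h2 chkI_inn hpd hds hd
  have ma := mem_inv h2 hpa ha
  have mb := mem_inv h2 hpb hb
  have h := all_of chkA_true md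
  obtain ⟨L, hL, hmem⟩ := filK_spec h
  have ca : cmE pd pa = true := (hpd.comm_iff h2 hpa).1 had.symm
  have cb : cmE pd pb = true := (hpd.comm_iff h2 hpb).1 hbd.symm
  have la := hmem pa (Or.inr ⟨ma, ca⟩)
  have lb := hmem pb (Or.inr ⟨mb, cb⟩)
  have h1 := all_of (all_of hL la) lb
  simp only [stE_eq, Bool.or_eq_true, eqE_iff] at h1
  have hA : a ∈ Subgroup.closure ({a, b} : Set (Cor F)) :=
    Subgroup.subset_closure (by simp)
  have hB : b ∈ Subgroup.closure ({a, b} : Set (Cor F)) :=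
    Subgroup.subset_closure (by simp)
  have hAB := Subgroup.mul_mem _ hA hB
  have iab := hpa.mul h2 hpb
  have ir := iab.mul h2 iab
  rcases h1 with h1 | h1 | h1
  · exact absurd ((hpa.comm_iff h2 hpb).2 h1) hab
  · rw [h1] at ir
    rw [hpd.ext ir]
    exact Subgroup.mul_mem _ hAB hAB
  · have irr := ir.mul h2 ir
    rw [h1] at irr
    rw [hpd.ext irr]
    exact Subgroup.mul_mem _ (Subgroup.mul_mem _ hAB hAB) (Subgroup.mul_mem _ hAB hAB)

/-- row EQB -/
theorem eqb_thm : EQBStmt := by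
  intro F _ _ hc a b c d ha hb hcc hd has hbs hcs hds hac had hbd hab hbc hcd
  have h2 := two_zero hc
  obtain ⟨pa, hpa, -⟩ := exists_isE hc a
  obtain ⟨pb, hpb, -⟩ := exists_isE hc b
  obtain ⟨pc, hpc, -⟩ := exists_isE hc c
  obtain ⟨pd, hpd, -⟩ := exists_isE hc d
  have ma : pa ∈ outL := mem_of_chkI h2 chkI_out hpa has ha
  have mb : pb ∈ outL := mem_of_chkI h2 chkI_out hpb hbs hb
  have mc : pc ∈ outL := mem_of_chkI h2 chkI_out hpc hcs hcc
  have md : pd ∈ outL := mem_of_chkI h2 chkI_out hpd hds hd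
  have h := all_of chkB_true ma
  obtain ⟨L, hL, hmem⟩ := filK_spec h
  have cc : cmE pa pc = true := (hpa.comm_iff h2 hpc).1 hac
  have cd : cmE pa pd = true := (hpa.comm_iff h2 hpd).1 had
  have lc := hmem pc (Or.inr ⟨mc, cc⟩)
  have ld := hmem pd (Or.inr ⟨md, cd⟩)
  have h1 := all_of (all_of hL lc) ld
  rw [Bool.or_eq_true] at h1
  rcases h1 with h1 | h1
  · exact absurd ((hpc.comm_iff h2 hpd).2 h1) hcd
  have h3 := all_of h1 mb
  simp only [Bool.or_eq_true, Bool.not_eq_true', eqE_iff] at h3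
  rcases h3 with h3 | h3 | h3 | h3
  · have := (hpb.comm_iff h2 hpd).1 hbd
    rw [h3] at this
    exact absurd this Bool.false_ne_true
  · exact absurd ((hpa.comm_iff h2 hpb).2 h3) hab
  · exact absurd ((hpb.comm_iff h2 hpc).2 h3) hbc
  · have hA : a ∈ Subgroup.closure ({a, b, c} : Set (Cor F)) :=
      Subgroup.subset_closure (by simp)
    have hB : b ∈ Subgroup.closure ({a, b, c} : Set (Cor F)) :=
      Subgroup.subset_closure (by simp)
    have hC : c ∈ Subgroup.closure ({a, b, c} : Set (Cor F)) :=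
      Subgroup.subset_closure (by simp)
    have iw : IsE (c * b * c * b * a * c * b * a * c * b * c * b * c) (wE pa pb pc) := by
      have k := fun (x y : Cor F) (p q : EM) (hx : IsE x p) (hy : IsE y q) => hx.mul h2 hy
      exact k _ _ _ _ (k _ _ _ _ (k _ _ _ _ (k _ _ _ _ (k _ _ _ _ (k _ _ _ _ (k _ _ _ _
        (k _ _ _ _ (k _ _ _ _ (k _ _ _ _ (k _ _ _ _ (k _ _ _ _ hpc hpb) hpc) hpb) hpa) hpc)
        hpb) hpa) hpc) hpb) hpc) hpb) hpc
    rw [h3] at iw
    rw [hpd.ext iw]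
    have M := fun (x y : Cor F) (hx : x ∈ Subgroup.closure ({a, b, c} : Set (Cor F)))
      (hy : y ∈ Subgroup.closure ({a, b, c} : Set (Cor F))) => Subgroup.mul_mem _ hx hy
    exact M _ _ (M _ _ (M _ _ (M _ _ (M _ _ (M _ _ (M _ _ (M _ _ (M _ _ (M _ _ (M _ _
      (M _ _ hC hB) hC) hB) hA) hC) hB) hA) hC) hB) hC) hB) hC

end Pool.Agent.H17.SCG3
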