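import Pool.Agent.H17.SCG3.E2

/-! Project SCG3: rows EQA and EQB, the case `q = 2` (helper17). -/

namespace Pool.Agent.H17.SCG3

open Matrix Pool.SCG

/-- the inner involutions -/
def innL : List EM :=
  [.mk (.mk false false true false true false true false false) false,
   .mk (.mk false false true true true true true false false) false,
   .mk (.mk false true false true false false false false true) false,
   .mk (.mk false true false true false false true true true) false,
   .mk (.mk false true true false true false true true false) false,
   .mk (.mk false true true true false true false false true) false,
   .mk (.mk true false false false false true false true false) false,
   .mk (.mk true false false false true false false true true) false,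
   .mk (.mk true false false false true false true false true) false,
   .mk (.mk true false false false true false true true true) false,
   .mk (.mk true false false false true true false false true) false,
   .mk (.mk true false false true false true true true false) false,
   .mk (.mk true false false true true false false false true) false,
   .mk (.mk true false false true true false true false true) false,
   .mk (.mk true false false true true true false false true) false,
   .mk (.mk true false true false true false false false true) false,
   .mk (.mk true false true false true true false false true) false,
   .mk (.mk true true false false true false false false true) false,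
   .mk (.mk true true false false true false false true true) false,
   .mk (.mk true true true false false true false true false) false,
   .mk (.mk true true true false true false false false true) false]

/-- the outer involutions -/
def outL : List EM :=
  [.mk (.mk false false true false true false true false false) true,
   .mk (.mk false false true false true false true false true) true,
   .mk (.mk false false true false true true true true false) true,
   .mk (.mk false false true false true true true true true) true,
   .mk (.mk false true false true false false false false true) true,
   .mk (.mk false true false true false true false true true) true,
   .mk (.mk false true false true true false false false true) true,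
   .mk (.mk false true false true true true false true true) true,
   .mk (.mk false true true true false false true false true) true,
   .mk (.mk false true true true false true true true true) true,
   .mk (.mk false true true true true false true false false) true,
   .mk (.mk false true true true true true true true false) true,
   .mk (.mk true false false false false true false true false) true,
   .mk (.mk true false false false false true false true true) true,
   .mk (.mk true false false false true false false false true) true,
   .mk (.mk true false false false true true false true false) true,
   .mk (.mk true false true false false true true true false) true,
   .mk (.mk true false true false false true true true true) true,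
   .mk (.mk true false true false true false true false false) true,
   .mk (.mk true false true false true true true true true) true,
   .mk (.mk true true false true false false false false true) true,
   .mk (.mk true true false true false true false true false) true,
   .mk (.mk true true false true true true false true false) true,
   .mk (.mk true true false true true true false true true) true,
   .mk (.mk true true true true false false true false true) true,
   .mk (.mk true true true true false true true true false) true,
   .mk (.mk true true true true true false true false false) true,
   .mk (.mk true true true true true false true false true) true]

/-- strict evaluation of an element -/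
def stE (p : EM) (k : EM → Bool) : Bool :=
  match p with
  | .mk (.mk a b c d e f g h i) s => fc s fun s => k (.mk (.mk a b c d e f g h i) s)

theorem stE_eq (p : EM) (k : EM → Bool) : stE p k = k p := by
  cases p with
  | mk x s =>
  cases x with
  | mk a b c d e f g h i => simp only [stE, fc_eq]

/-- strict filter with a continuation -/
def filK (p : EM → Bool) : List EM → List EM → (List EM → Bool) → Bool
  | [], acc, k => k acc
  | q :: l, acc, k =>
    match p q with
    | true => filK p l (q :: acc) k
    | false => filK p l acc k

theorem filK_spec {p : EM → Bool} {l acc : List EM} {k : List EM → Bool}
    (H : filK p l acc k = true) :
    ∃ L : List EM, k L = true ∧ ∀ q, (q ∈ acc ∨ (q ∈ l ∧ p q = true)) → q ∈ L := by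
  induction l generalizing acc with
  | nil =>
    refine ⟨acc, H, ?_⟩
    rintro q (h | h)
    · exact h
    · exact absurd h.1 (by simp)
  | cons r l ih =>
    unfold filK at H
    cases hp : p r with
    | true =>
      rw [hp] at H
      obtain ⟨L, h1, h2⟩ := ih H
      refine ⟨L, h1, ?_⟩
      rintro q (h | ⟨h, hq⟩)
      · exact h2 q (Or.inl (List.mem_cons_of_mem _ h))
      · rcases List.mem_cons.1 h with h | h
        · exact h2 q (Or.inl (by rw [h]; exact List.mem_cons_self))
        · exact h2 q (Or.inr ⟨h, hq⟩)
    | false =>
      rw [hp] at H
      obtain ⟨L, h1, h2⟩ := ih H
      refine ⟨L, h1, ?_⟩
      rintro q (h | ⟨h, hq⟩)
      · exact h2 q (Or.inl h)
      · rcases List.mem_cons.1 h with h | h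
        · rw [h, hp] at hq
          exact absurd hq Bool.false_ne_true
        · exact h2 q (Or.inr ⟨h, hq⟩)

/-- test: the lists are complete -/
def chkI (s : Bool) (l : List EM) : Bool :=
  listM fun a b c d e f g h i =>
    !(eqE (emul (.mk (.mk a b c d e f g h i) s) (.mk (.mk a b c d e f g h i) s)) oneE) ||
      (eqE (.mk (.mk a b c d e f g h i) s) oneE || memE (.mk (.mk a b c d e f g h i) s) l)

theorem chkI_inn : chkI false innL = true := by decide +kernel

theorem chkI_out : chkI true outL = true := by decide +kernel

theorem mem_of_chkI {F : Type} [Field F] (h2 : (2 : F) = 0) {s : Bool} {l : List EM}
    (H : chkI s l = true) {x : Cor F} {p : EM} (hx : IsE x p) (hs : x.s = s) (hi : Iv x) :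
    p ∈ l := by
  have hps : p.s = s := hx.1.symm.trans hs
  have h1 : emul p p = oneE := by
    have := hx.mul h2 hx
    rw [hi.2] at this
    exact this.uniq isE_one
  have h3 : eqE p oneE ≠ true := by
    intro h
    rw [eqE_iff] at h
    rw [h] at hx
    exact hi.1 (hx.ext isE_one)
  cases p with
  | mk x t =>
  cases x with
  | mk a b c d e f g h i =>
  have ht : t = s := hps
  subst ht
  have := listM_spec H a b c d e f g h i
  simp only [Bool.or_eq_true, Bool.not_eq_true'] at this
  rcases this with h | h | h
  · rw [← eqE_iff, h] at h1
    exact absurd h1 Bool.false_ne_true
  · exact absurd h h3
  · exact memE_iff.1 h

/-- test for `EQA` -/
def chkA : Bool :=
  innL.all fun d => filK (cmE d) (innL ++ outL) [] fun L => L.all fun a => L.all fun b =>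
    cmE a b || stE (emul a b) fun ab => stE (emul ab ab) fun r => eqE r d || eqE (emul r r) d

theorem chkA_true : chkA = true := by decide +kernel

/-- a word of length thirteen -/
def wE (a b c : EM) : EM :=
  emul (emul (emul (emul (emul (emul (emul (emul (emul (emul (emul (emul
    c b) c) b) a) c) b) a) c) b) c) b) c

/-- test for `EQB` -/
def chkB : Bool :=
  outL.all fun a => filK (cmE a) outL [] fun L => L.all fun c => L.all fun d =>
    cmE c d || outL.all fun b => !(cmE b d) || (cmE a b || (cmE b c || eqE (wE a b c) d))

theorem chkB_true : chkB = true := by decide +kernel

end Pool.Agent.H17.SCG3
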